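import Pool.Agent.helper38.UB.F2
import Pool.Agent.helper38.UB.E2
import Pool.Agent.helper38.LacFinal
import Pool.Agent.helper74.LG.IA
import Pool.Agent.helper74.LG.IB
import Pool.Agent.helper74.LG.IE
import Pool.Agent.helper74.LG.IO
import Pool.Agent.helper74.LG.F3

set_option autoImplicit false

namespace Pool.Agent.Results.MP_c20521_an.AllOrdersTwo

open Pool.Agent.helper38.Lac Pool.Agent.helper38.UB Pool.Agent.helper74.LG

theorem g_eq_of {ρ : EReal} {n : ℕ} {D : ℝ} (hup : ∀ f ∈ Gord ρ n, delta f ≤ D)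
    (hlow : ∀ ε : ℝ, 0 < ε → ∃ f ∈ Gord ρ n, D - ε ≤ delta f) : g ρ n = D := by
  have hne : (delta '' Gord ρ n).Nonempty := by
    obtain ⟨f, hf, _⟩ := hlow 1 one_pos
    exact ⟨_, f, hf, rfl⟩
  have hbdd : BddAbove (delta '' Gord ρ n) := by
    refine ⟨D, ?_⟩
    rintro x ⟨f, hf, rfl⟩
    exact hup f hf
  apply le_antisymm
  · apply csSup_le hne
    rintro x ⟨f, hf, rfl⟩
    exact hup f hf
  · apply le_of_forall_pos_le_add
    intro ε hε
    obtain ⟨f, hf, hfD⟩ := hlow ε hε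
    have h1 : delta f ≤ g ρ n := le_csSup hbdd ⟨f, hf, rfl⟩
    linarith

theorem g_eq_pi {ρ : EReal} {n : ℕ}
    (hlow : ∀ ε : ℝ, 0 < ε → ∃ f ∈ Gord ρ n, Real.pi - ε ≤ delta f) : g ρ n = Real.pi :=
  g_eq_of (fun _ hf => delta_le_pi hf.1.1) hlow

/-- The complete function `ρ ↦ g_ρ(2)`, `0 ≤ ρ ≤ ∞`. -/
theorem result :
    (∀ ρ : ℝ, 0 ≤ ρ → ρ ≤ 2 → g (ρ : EReal) 2 = Real.pi / 2) ∧
    (∀ ρ : ℝ, 2 < ρ → ρ ≤ 3 → g (ρ : EReal) 2 = Real.pi) ∧
    (∀ k : ℕ, 2 ≤ k → ∀ ρ : ℝ, 2 * (k : ℝ) - 1 < ρ → ρ < 2 * k →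
      g (ρ : EReal) 2 = Real.pi / 2 + (k - 1) * Real.pi / ρ) ∧
    (∀ k : ℕ, 2 ≤ k → ∀ ρ : ℝ, 2 * (k : ℝ) ≤ ρ → ρ ≤ 2 * k + 1 → g (ρ : EReal) 2 = Real.pi) ∧
    g ⊤ 2 = Real.pi := by
  have hpi := Real.pi_pos
  refine ⟨?_, ?_, ?_, ?_, ?_⟩
  · intro ρ h0 h2
    rcases h2.lt_or_eq with h | h
    · have hup : ∀ f ∈ Gord (ρ : EReal) 2, delta f ≤ Real.pi / 2 := by
        intro f hf
        have h1 := delta_le_of_order_lt (n := 2) le_rfl hf.1 (by
          rw [hf.2]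
          have : ρ < ((2:ℕ) : ℝ) := by push_cast; exact h
          exact_mod_cast this)
        push_cast at h1
        exact h1
      apply g_eq_of hup
      intro ε hε
      obtain ⟨f, hf, hz⟩ := exists_finite_order (n := 2) (by norm_num) h0 (by push_cast; exact h)
      refine ⟨f, hf, ?_⟩
      have h1 := le_delta hf.1.1 hz
      push_cast at h1
      linarith
    · subst h
      apply g_eq_of (fun f hf => upper_two le_rfl hf)
      intro ε hε
      obtain ⟨f, hf, hd⟩ := lower_two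
      exact ⟨f, hf, by linarith⟩
  · intro ρ h2 h3
    apply g_eq_pi
    intro ε hε
    rcases h3.lt_or_eq with h | h
    · obtain ⟨f, hf, hd⟩ := lower_A 1 le_rfl ρ (by push_cast; linarith) (by push_cast; linarith)
      exact ⟨f, hf, by rw [hd]; linarith⟩
    · subst h
      obtain ⟨f, hf, hd⟩ := lower_three
      exact ⟨f, hf, by rw [hd]; linarith⟩
  · intro k hk ρ h1 h2
    apply g_eq_of
    · intro f hf
      exact upper_mid le_rfl (by omega) h1 h2 hf
    · intro ε hε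
      exact lower_B k hk ρ h1 h2 ε hε
  · intro k hk ρ h1 h2
    apply g_eq_pi
    intro ε hε
    rcases h1.lt_or_eq with h | h
    · rcases h2.lt_or_eq with h' | h'
      · obtain ⟨f, hf, hd⟩ := lower_A k (by omega) ρ h h'
        exact ⟨f, hf, by rw [hd]; linarith⟩
      · subst h'
        obtain ⟨f, hf, hd⟩ := lower_odd k hk
        exact ⟨f, hf, by rw [hd]; linarith⟩
    · subst h
      exact lower_even k hk ε hε
  · apply g_eq_pi
    intro ε hε
    obtain ⟨f, hf, hz⟩ := exists_infinite_order (n := 2) (by norm_num)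
    have hd : delta f = Real.pi := delta_eq_pi hf.1.1 hz
    exact ⟨f, hf, by rw [hd]; linarith⟩

end Pool.Agent.Results.MP_c20521_an.AllOrdersTwo
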