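import Pool.Agent.helper38.LacFinal

set_option autoImplicit false

namespace Pool.Agent.Results.MP_c20521_an.InfiniteOrder

open Pool.Agent.helper38.Lac

/-- For every `n ≥ 2` one has `g_∞(n) = π`, and the supremum is attained by a function all of whose
zeros are negative real numbers. -/
theorem result : ∀ n : ℕ, 2 ≤ n →
    g ⊤ n = Real.pi ∧
    ∃ f ∈ Gord ⊤ n, (∀ z : ℂ, f z = 0 → z.re < 0 ∧ z.im = 0) ∧ delta f = Real.pi := by
  intro n hn
  obtain ⟨f, hf, hz⟩ := exists_infinite_order (n := n) (by omega)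
  have hd : delta f = Real.pi := delta_eq_pi hf.1.1 hz
  refine ⟨?_, f, hf, hz, hd⟩
  have hgr : IsGreatest (delta '' Gord ⊤ n) Real.pi := by
    refine ⟨⟨f, hf, hd⟩, ?_⟩
    rintro x ⟨h, hh, rfl⟩
    exact delta_le_pi hh.1.1
  exact hgr.csSup_eq

end Pool.Agent.Results.MP_c20521_an.InfiniteOrder
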