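import Pool.Agent.helper38.LacOrd

set_option autoImplicit false

namespace Pool.Agent.Results.MP_c20521_an.OrderLessThanN

open Pool.Agent.helper38.Lac

/-- For every `n ≥ 2` and every real order `0 ≤ ρ < n` one has `g_ρ(n) = π / n`, and the supremum
is attained. -/
theorem result : ∀ n : ℕ, 2 ≤ n → ∀ ρ : ℝ, 0 ≤ ρ → ρ < n →
    g (ρ : EReal) n = Real.pi / n ∧ ∃ f ∈ Gord (ρ : EReal) n, delta f = Real.pi / n := by
  intro n hn ρ hρ0 hρn
  have hup : ∀ f ∈ Gord (ρ : EReal) n, delta f ≤ Real.pi / n := by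
    intro f hf
    apply delta_le_of_order_lt hn hf.1
    rw [hf.2]
    exact_mod_cast hρn
  obtain ⟨f, hf, hz⟩ := exists_finite_order (n := n) (by omega) hρ0 hρn
  have hd : delta f = Real.pi / n := le_antisymm (hup f hf) (le_delta hf.1.1 hz)
  refine ⟨?_, f, hf, hd⟩
  have hgr : IsGreatest (delta '' Gord (ρ : EReal) n) (Real.pi / n) := by
    refine ⟨⟨f, hf, hd⟩, ?_⟩
    rintro x ⟨h, hh, rfl⟩
    exact hup h hh
  exact hgr.csSup_eq

end Pool.Agent.Results.MP_c20521_an.OrderLessThanN
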