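import Pool.Agent.helper38.UB.F1
import Pool.Agent.helper38.LacFinal

set_option autoImplicit false

namespace Pool.Agent.Results.MP_c20521_an.UpperBoundAllN

open Pool.Agent.helper38.Lac Pool.Agent.helper38.UB

/-- For every `n ≥ 2` and every real order `ρ` in an interval `(2k-1, 2k)`, `k ≥ 1`, every function
`f ∈ G_ρ(n)` satisfies `δ(f) ≤ π/2 + (k-1)π/ρ`; hence `g_ρ(n) ≤ π/2 + (k-1)π/ρ < π`. -/
theorem result : ∀ n : ℕ, 2 ≤ n → ∀ k : ℕ, 1 ≤ k → ∀ ρ : ℝ, 2 * (k : ℝ) - 1 < ρ → ρ < 2 * k →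
    (∀ f ∈ Gord (ρ : EReal) n, delta f ≤ Real.pi / 2 + (k - 1) * Real.pi / ρ) ∧
    g (ρ : EReal) n ≤ Real.pi / 2 + (k - 1) * Real.pi / ρ ∧
    Real.pi / 2 + (k - 1) * Real.pi / ρ < Real.pi := by
  intro n hn k hk ρ h1 h2
  have hpi := Real.pi_pos
  have hk1 : (1:ℝ) ≤ k := by exact_mod_cast hk
  have hρ : 0 < ρ := by linarith
  have hup : ∀ f ∈ Gord (ρ : EReal) n, delta f ≤ Real.pi / 2 + (k - 1) * Real.pi / ρ :=
    fun f hf => upper_mid hn hk h1 h2 hf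
  refine ⟨hup, ?_, ?_⟩
  · rcases (Gord (ρ : EReal) n).eq_empty_or_nonempty with h | h
    · unfold g
      rw [h, Set.image_empty, Real.sSup_empty]
      have : 0 ≤ ((k:ℝ) - 1) * Real.pi / ρ := by
        apply div_nonneg (mul_nonneg (by linarith) hpi.le) hρ.le
      linarith
    · apply csSup_le (h.image _)
      rintro x ⟨f, hf, rfl⟩
      exact hup f hf
  · have h3 : ((k:ℝ) - 1) * Real.pi / ρ < Real.pi / 2 := by
      rw [div_lt_div_iff₀ hρ (by norm_num)]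
      nlinarith
    linarith

end Pool.Agent.Results.MP_c20521_an.UpperBoundAllN
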